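import Mathlib

set_option autoImplicit false

/-!
# Ping-pong for two isometries of a (vertex set of a) tree

`TreeDist d`: the integer valued function `d` is the path metric on the vertex set of a tree.
The main result is `dichotomy`.
-/

namespace Pool.Agent.PowAlt

structure TreeDist {V : Type*} (d : V → V → ℤ) : Prop where
  symm : ∀ x y, d x y = d y x
  nonneg : ∀ x y, 0 ≤ d x y
  self : ∀ x, d x x = 0
  eq_of : ∀ x y, d x y = 0 → x = y
  four : ∀ x y z w, d x z + d y w ≤ d x y + d z w ∨ d x z + d y w ≤ d x w + d y z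
  even : ∀ x y z, ∃ k, d x y + d y z + d x z = 2 * k
  step : ∀ x y, x ≠ y → ∃ z, d x z = 1 ∧ d z y = d x y - 1

def Isom {V : Type*} (d : V → V → ℤ) (g : Equiv.Perm V) : Prop := ∀ x y, d (g x) (g y) = d x y

section Basic

variable {V : Type*} {d : V → V → ℤ}

theorem aiv (g : Equiv.Perm V) (x : V) : g (g⁻¹ x) = x := by
  rw [← Equiv.Perm.mul_apply, mul_inv_cancel]; rfl

theorem iav (g : Equiv.Perm V) (x : V) : g⁻¹ (g x) = x := by
  rw [← Equiv.Perm.mul_apply, inv_mul_cancel]; rfl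

theorem Isom.one : Isom d (1 : Equiv.Perm V) := fun _ _ => rfl

theorem Isom.mul {g h : Equiv.Perm V} (hg : Isom d g) (hh : Isom d h) : Isom d (g * h) := by
  intro x y
  rw [Equiv.Perm.mul_apply, Equiv.Perm.mul_apply, hg, hh]

theorem Isom.inv {g : Equiv.Perm V} (hg : Isom d g) : Isom d g⁻¹ := by
  intro x y
  have := hg (g⁻¹ x) (g⁻¹ y)
  rw [aiv, aiv] at this
  exact this.symm

theorem Isom.pow {g : Equiv.Perm V} (hg : Isom d g) (n : ℕ) : Isom d (g ^ n) := by
  induction n with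
  | zero => rw [pow_zero]; exact Isom.one
  | succ n ih => rw [pow_succ]; exact ih.mul hg

theorem Isom.zpow {g : Equiv.Perm V} (hg : Isom d g) (n : ℤ) : Isom d (g ^ n) := by
  obtain ⟨n, rfl | rfl⟩ := n.eq_nat_or_neg
  · rw [zpow_natCast]; exact hg.pow n
  · rw [zpow_neg, zpow_natCast]; exact (hg.pow n).inv

theorem TreeDist.tri (hd : TreeDist d) (x y z : V) : d x z ≤ d x y + d y z := by
  have h1 := hd.four x y z y
  have h2 := hd.self y
  have h3 := hd.symm y z
  omega

/-- two vertices at the same distance from `a` on a geodesic from `a` to `v` coincide -/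
theorem TreeDist.same (hd : TreeDist d) {a x y v : V} (h1 : d a v = d a x + d x v)
    (h2 : d a v = d a y + d y v) (h3 : d a x = d a y) : x = y := by
  apply hd.eq_of
  have h4 := hd.four x a y v
  have h5 := hd.nonneg x y
  have h6 := hd.symm x a
  have h7 := hd.symm a y
  omega

end Basic

section Hyp

variable {V : Type*} {d : V → V → ℤ}

/-- `p` is on the axis of the hyperbolic isometry `g` of translation length `τ` -/
structure Axis (d : V → V → ℤ) (g : Equiv.Perm V) (p : V) (τ : ℤ) : Prop where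
  pos : 0 < τ
  one : d p (g p) = τ
  two : d p (g (g p)) = 2 * τ

theorem Axis.inv {g : Equiv.Perm V} {p : V} {τ : ℤ} (hd : TreeDist d) (hg : Isom d g)
    (h : Axis d g p τ) : Axis d g⁻¹ p τ := by
  refine ⟨h.pos, ?_, ?_⟩
  · have := hg (g⁻¹ p) p
    rw [aiv, h.one] at this
    rw [hd.symm, ← this]
  · have := (hg.mul hg) (g⁻¹ (g⁻¹ p)) p
    rw [Equiv.Perm.mul_apply, aiv, aiv,
      Equiv.Perm.mul_apply, h.two] at this
    rw [hd.symm, ← this]

theorem Axis.pow {g : Equiv.Perm V} {p : V} {τ : ℤ} (hd : TreeDist d) (hg : Isom d g)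
    (h : Axis d g p τ) (n : ℕ) : d p ((g ^ n) p) = n * τ := by
  have key : d p ((g ^ n) p) = n * τ ∧ d p ((g ^ (n + 1)) p) = (n + 1) * τ := by
    induction n with
    | zero =>
      simp only [pow_zero, Equiv.Perm.coe_one, id_eq, hd.self, Nat.cast_zero, zero_mul, zero_add,
        pow_one, one_mul, true_and]
      exact h.one
    | succ n ih =>
      obtain ⟨ih1, ih2⟩ := ih
      refine ⟨by push_cast; exact ih2, ?_⟩
      have e1 : (g ^ (n + 1)) p = (g ^ n) (g p) := by rw [pow_succ, Equiv.Perm.mul_apply]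
      have e2 : (g ^ (n + 1 + 1)) p = (g ^ n) (g (g p)) := by
        rw [pow_succ, pow_succ, Equiv.Perm.mul_apply, Equiv.Perm.mul_apply]
      have d1 : d ((g ^ n) p) ((g ^ (n + 1)) p) = τ := by rw [e1, hg.pow n, h.one]
      have d2 : d ((g ^ (n + 1)) p) ((g ^ (n + 1 + 1)) p) = τ := by
        rw [e1, e2, hg.pow n, hg, h.one]
      have d3 : d ((g ^ n) p) ((g ^ (n + 1 + 1)) p) = 2 * τ := by rw [e2, hg.pow n, h.two]
      have h4 := hd.four ((g ^ n) p) p ((g ^ (n + 1 + 1)) p) ((g ^ (n + 1)) p)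
      have h5 := hd.tri p ((g ^ (n + 1)) p) ((g ^ (n + 1 + 1)) p)
      have h6 := hd.symm ((g ^ n) p) p
      have h7 := hd.symm ((g ^ (n + 1 + 1)) p) ((g ^ (n + 1)) p)
      have hpos := h.pos
      have e3 : ((n : ℤ) + 1) * τ = n * τ + τ := by ring
      have e4 : (((n + 1 : ℕ) : ℤ) + 1) * τ = n * τ + 2 * τ := by push_cast; ring
      rw [e4]
      rw [e3] at ih2
      omega
  exact key.1

theorem Axis.pow_axis {g : Equiv.Perm V} {p : V} {τ : ℤ} (hd : TreeDist d) (hg : Isom d g)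
    (h : Axis d g p τ) {n : ℕ} (hn : 1 ≤ n) : Axis d (g ^ n) p (n * τ) := by
  refine ⟨?_, h.pow hd hg n, ?_⟩
  · have := h.pos
    positivity
  · have := h.pow hd hg (n + n)
    rw [pow_add, Equiv.Perm.mul_apply] at this
    rw [this]
    push_cast
    ring

/-- if `v` is not beyond `g⁻¹ p` then `g ^ n v` is beyond `g p`, for `n ≥ 2` -/
theorem Axis.push {g : Equiv.Perm V} {p v : V} {τ : ℤ} (hd : TreeDist d) (hg : Isom d g)
    (h : Axis d g p τ) {n : ℕ} (hn : 2 ≤ n) (hv : d p v ≠ τ + d (g⁻¹ p) v) :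
    d p ((g ^ n) v) = τ + d (g p) ((g ^ n) v) := by
  obtain ⟨m, rfl⟩ : ∃ m, n = m + 2 := ⟨n - 2, by omega⟩
  have hpos := h.pos
  set c := (g ^ (m + 1)) p with hc
  set e := (g ^ (m + 2)) p with he
  set b := g p with hb
  set w := (g ^ (m + 2)) v with hw
  have hec : (g ^ (m + 2)) (g⁻¹ p) = c := by
    rw [hc, pow_succ, Equiv.Perm.mul_apply, aiv]
  have hac : d p c = (m + 1) * τ := by
    have := h.pow hd hg (m + 1); push_cast at this; exact this
  have hae : d p e = (m + 2) * τ := by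
    have := h.pow hd hg (m + 2); push_cast at this; exact this
  have hbc : d b c = m * τ := by
    have h1 : c = g ((g ^ m) p) := by rw [hc, pow_succ', Equiv.Perm.mul_apply]
    rw [h1, hb, hg, h.pow hd hg m]
  have hab : d p b = τ := h.one
  have hce : d c e = τ := by
    have h1 : e = (g ^ (m + 1)) (g p) := by rw [he, pow_succ, Equiv.Perm.mul_apply]
    rw [h1, hc, hg.pow, h.one]
  have hew : d e w = d p v := by rw [he, hw, hg.pow]
  have hcw : d c w = d (g⁻¹ p) v := by rw [← hec, hw, hg.pow]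
  have hpg : d p (g⁻¹ p) = τ := (h.inv hd hg).one
  have ht1 := hd.tri p (g⁻¹ p) v
  have h4 := hd.four p c e w
  have ht2 := hd.tri p c w
  have ht3 := hd.tri b c w
  have ht4 := hd.tri p b w
  rw [add_mul] at hac hae
  rw [one_mul] at hac
  generalize (m : ℤ) * τ = M at *
  have s1 := hd.symm e c
  have s2 := hd.symm c e
  omega

end Hyp

section PingPong

open scoped Pointwise

variable {V : Type*} {d : V → V → ℤ}

/-- a ping-pong pair -/
def PP (g h : Equiv.Perm V) : Prop := ∃ X Y : Set V, X.Nonempty ∧ Y.Nonempty ∧ Disjoint X Y ∧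
  (∀ i : ℤ, i ≠ 0 → ∀ v ∈ Y, (g ^ i) v ∈ X) ∧ (∀ j : ℤ, j ≠ 0 → ∀ v ∈ X, (h ^ j) v ∈ Y)

theorem PP.symm {g h : Equiv.Perm V} (H : PP g h) : PP h g := by
  obtain ⟨X, Y, hX, hY, hXY, h1, h2⟩ := H
  exact ⟨Y, X, hY, hX, hXY.symm, h2, h1⟩

theorem PP.pow {g h : Equiv.Perm V} (H : PP g h) {n m : ℕ} (hn : 1 ≤ n) (hm : 1 ≤ m) :
    PP (g ^ n) (h ^ m) := by
  obtain ⟨X, Y, hX, hY, hXY, h1, h2⟩ := H
  refine ⟨X, Y, hX, hY, hXY, ?_, ?_⟩
  · intro i hi v hv
    rw [← zpow_natCast, ← zpow_mul]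
    exact h1 _ (mul_ne_zero (by omega) hi) v hv
  · intro i hi v hv
    rw [← zpow_natCast, ← zpow_mul]
    exact h2 _ (mul_ne_zero (by omega) hi) v hv

theorem PP.free {g h : Equiv.Perm V} (H : PP g h) :
    Function.Injective (FreeGroup.lift ![g, h]) := by
  obtain ⟨X, Y, hX, hY, hXY, h1, h2⟩ := H
  have key : Function.Injective (Monoid.CoprodI.lift (fun i : Fin 2 =>
      FreeGroup.lift (fun _ : Unit => (![g, h] i : Equiv.Perm V)))) := by
    refine Monoid.CoprodI.lift_injective_of_ping_pong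
      (H := fun _ : Fin 2 => FreeGroup Unit)
      (fun i : Fin 2 => FreeGroup.lift (fun _ : Unit => (![g, h] i : Equiv.Perm V))) ?_
      (![X, Y]) ?_ ?_ ?_
    · right
      refine ⟨0, ?_⟩
      have : Infinite (FreeGroup Unit) := Infinite.of_injective
        (FreeGroup.freeGroupUnitEquivInt.symm) (Equiv.injective _)
      exact le_trans (by exact_mod_cast (Cardinal.natCast_lt_aleph0 (n := 3)).le)
        (Cardinal.aleph0_le_mk (FreeGroup Unit))
    · intro i
      fin_cases i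
      · exact hX
      · exact hY
    · intro i j hij
      fin_cases i <;> fin_cases j
      · exact absurd rfl hij
      · exact hXY
      · exact hXY.symm
      · exact absurd rfl hij
    · have main : ∀ (k : Equiv.Perm V) (A B : Set V), (∀ i : ℤ, i ≠ 0 → ∀ v ∈ B, (k ^ i) v ∈ A) →
          ∀ w : FreeGroup Unit, w ≠ 1 → (FreeGroup.lift (fun _ : Unit => k) w) • B ⊆ A := by
        intro k A B hk
        refine FreeGroup.freeGroupUnitEquivInt.forall_congr_left.mpr ?_
        intro n hne1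
        change FreeGroup.lift (fun _ => k) (FreeGroup.of () ^ n) • B ⊆ A
        simp only [map_zpow, FreeGroup.lift_apply_of]
        have hnne0 : n ≠ 0 := by
          rintro rfl
          apply hne1
          simp [FreeGroup.freeGroupUnitEquivInt]
        rintro _ ⟨v, hv, rfl⟩
        exact hk n hnne0 v hv
      intro i j hij
      fin_cases i <;> fin_cases j
      · exact absurd rfl hij
      · exact main g X Y h1
      · exact main h Y X h2
      · exact absurd rfl hij
  have e : FreeGroup.lift ![g, h] = (Monoid.CoprodI.lift (fun i : Fin 2 =>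
      FreeGroup.lift (fun _ : Unit => (![g, h] i : Equiv.Perm V)))).comp
        (@freeGroupEquivCoprodI (Fin 2)).toMonoidHom := by
    ext i
    simp
  rw [e, MonoidHom.coe_comp]
  exact key.comp (MulEquiv.injective freeGroupEquivCoprodI)

/-- commute at some vertex -/
def CV (g h : Equiv.Perm V) : Prop := ∃ v, g (h v) = h (g v)

theorem CV.symm {g h : Equiv.Perm V} (H : CV g h) : CV h g := by
  obtain ⟨v, hv⟩ := H
  exact ⟨v, hv.symm⟩

theorem CV.inv {g h : Equiv.Perm V} (H : CV g⁻¹ h) : CV g h := by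
  obtain ⟨v, hv⟩ := H
  refine ⟨g⁻¹ v, ?_⟩
  rw [← hv, aiv, aiv]

theorem CV.inv' {g h : Equiv.Perm V} (H : CV g h⁻¹) : CV g h := H.symm.inv.symm

/-- the vertices beyond `g p` or `g⁻¹ p` -/
def XB (d : V → V → ℤ) (g : Equiv.Perm V) (p : V) (τ : ℤ) : Set V :=
  {v | d p v = τ + d (g p) v ∨ d p v = τ + d (g⁻¹ p) v}

theorem push2 {g : Equiv.Perm V} {p v : V} {τ : ℤ} (hd : TreeDist d) (hg : Isom d g)
    (h : Axis d g p τ) (hv : v ∉ XB d g p τ) {k : ℤ} (hk : k ≠ 0) :
    ((g ^ 2) ^ k) v ∈ XB d g p τ := by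
  have hv1 : d p v ≠ τ + d (g p) v := fun h => hv (Or.inl h)
  have hv2 : d p v ≠ τ + d (g⁻¹ p) v := fun h => hv (Or.inr h)
  obtain ⟨n, rfl | rfl⟩ := k.eq_nat_or_neg
  · left
    rw [zpow_natCast, ← pow_mul]
    exact h.push hd hg (by omega) hv2
  · right
    rw [zpow_neg, zpow_natCast, ← pow_mul, ← inv_pow]
    refine (h.inv hd hg).push hd hg.inv (by omega) ?_
    rw [inv_inv]
    exact hv1

theorem meetHH {g h : Equiv.Perm V} {p : V} {L : ℤ} (hd : TreeDist d) (hg : Isom d g)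
    (hh : Isom d h) (ag : Axis d g p L) (ah : Axis d h p L) (hcv : ¬ CV g h) :
    PP (g ^ 4) (h ^ 4) := by
  have key : ∀ a b : Equiv.Perm V, Isom d a → Isom d b → Axis d a p L → Axis d b p L →
      ¬ CV a b → ∀ v, d p v = 2 * L + d ((a ^ 2) p) v → d p v = 2 * L + d ((b ^ 2) p) v →
      False := by
    intro a b ia ib aa ab hab v h1 h2
    rw [pow_two, Equiv.Perm.mul_apply] at h1 h2
    have e1 : a (a p) = b (b p) := by
      apply hd.same (a := p) (v := v)
      · rw [aa.two, h1]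
      · rw [ab.two, h2]
      · rw [aa.two, ab.two]
    have e2 : a p = b p := by
      apply hd.same (a := p) (v := v)
      · have t1 := hd.tri p (a p) v
        have t2 := hd.tri (a p) (a (a p)) v
        have t3 : d (a p) (a (a p)) = L := by rw [ia, aa.one]
        have t4 := aa.one
        omega
      · have t1 := hd.tri p (b p) v
        have t2 := hd.tri (b p) (b (b p)) v
        have t3 : d (b p) (b (b p)) = L := by rw [ib, ab.one]
        have t4 := ab.one
        omega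
      · rw [aa.one, ab.one]
    exact hab ⟨p, by rw [← e2, e1, e2]⟩
  have aig := ag.inv hd hg
  have aih := ah.inv hd hh
  have ag2 : Axis d (g ^ 2) p (2 * L) := by
    have := ag.pow_axis hd hg (n := 2) (by norm_num); exact_mod_cast this
  have ah2 : Axis d (h ^ 2) p (2 * L) := by
    have := ah.pow_axis hd hh (n := 2) (by norm_num); exact_mod_cast this
  have hdisj : ∀ v, v ∈ XB d (g ^ 2) p (2 * L) → v ∉ XB d (h ^ 2) p (2 * L) := by
    rintro v (h1 | h1) (h2 | h2)
    · exact key g h hg hh ag ah hcv v h1 h2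
    · rw [← inv_pow] at h2
      exact key g h⁻¹ hg hh.inv ag aih (fun H => hcv H.inv') v h1 h2
    · rw [← inv_pow] at h1
      exact key g⁻¹ h hg.inv hh aig ah (fun H => hcv H.inv) v h1 h2
    · rw [← inv_pow] at h1 h2
      exact key g⁻¹ h⁻¹ hg.inv hh.inv aig aih (fun H => hcv H.inv.inv') v h1 h2
  refine ⟨XB d (g ^ 2) p (2 * L), XB d (h ^ 2) p (2 * L), ⟨(g ^ 2) p, ?_⟩, ⟨(h ^ 2) p, ?_⟩,
    Set.disjoint_left.mpr hdisj, ?_, ?_⟩
  · left
    rw [ag2.one, hd.self, add_zero]
  · left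
    rw [ah2.one, hd.self, add_zero]
  · intro i hi v hv
    have := push2 hd (hg.pow 2) ag2 (fun H => hdisj v H hv) hi
    rwa [← pow_mul] at this
  · intro i hi v hv
    have := push2 hd (hh.pow 2) ah2 (hdisj v hv) hi
    rwa [← pow_mul] at this

theorem fixpow {g : Equiv.Perm V} {p : V} (h : g p = p) (i : ℤ) : (g ^ i) p = p := by
  have h' : g⁻¹ p = p := by
    nth_rewrite 1 [← h]
    rw [iav]
  have hn : ∀ (f : Equiv.Perm V), f p = p → ∀ n : ℕ, (f ^ n) p = p := by
    intro f hf n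
    induction n with
    | zero => rfl
    | succ n ih => rw [pow_succ, Equiv.Perm.mul_apply, hf, ih]
  obtain ⟨n, rfl | rfl⟩ := i.eq_nat_or_neg
  · rw [zpow_natCast]; exact hn g h n
  · rw [zpow_neg, zpow_natCast, ← inv_pow]; exact hn _ h' n

theorem meetEH {g h : Equiv.Perm V} {p : V} {τ : ℤ} (hd : TreeDist d) (hg : Isom d g)
    (hh : Isom d h) (hp : g p = p) (ah : Axis d h p τ)
    (hcv : ∀ i : ℕ, 1 ≤ i → ¬ CV (g ^ i) h) :
    ∃ n : ℕ, 1 ≤ n ∧ PP (g ^ n) (h ^ 2) := by
  have hpos := ah.pos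
  have aih := ah.inv hd hh
  set x := h p with hx
  set y := h⁻¹ p with hy
  have hpx : d p x = τ := ah.one
  have hpy : d p y = τ := aih.one
  have hxy : x ≠ y := by
    intro hxy
    have : h (h p) = p := by rw [← hx, hxy, hy, aiv]
    have h2 := ah.two
    rw [this, hd.self] at h2
    omega
  have hfx : ∀ i : ℤ, (g ^ i) x = x → i = 0 := by
    have h0 : ∀ n : ℕ, (g ^ n) x = x → n = 0 := by
      intro n hn
      by_contra hne
      apply hcv n (by omega)
      refine ⟨p, ?_⟩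
      have := fixpow hp n
      rw [zpow_natCast] at this
      rw [this]
      exact hn
    intro i hi
    obtain ⟨n, rfl | rfl⟩ := i.eq_nat_or_neg
    · rw [zpow_natCast] at hi
      rw [h0 n hi]; rfl
    · rw [zpow_neg, zpow_natCast] at hi
      have : (g ^ n) x = x := by
        nth_rewrite 1 [← hi]
        rw [aiv]
      rw [h0 n this]; rfl
  have hfy : ∀ i : ℤ, (g ^ i) y = y → i = 0 := by
    have h0 : ∀ n : ℕ, (g ^ n) y = y → n = 0 := by
      intro n hn
      by_contra hne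
      apply hcv n (by omega)
      refine ⟨y, ?_⟩
      have := fixpow hp n
      rw [zpow_natCast] at this
      rw [hn, hy, aiv, this]
    intro i hi
    obtain ⟨n, rfl | rfl⟩ := i.eq_nat_or_neg
    · rw [zpow_natCast] at hi
      rw [h0 n hi]; rfl
    · rw [zpow_neg, zpow_natCast] at hi
      have : (g ^ n) y = y := by
        nth_rewrite 1 [← hi]
        rw [aiv]
      rw [h0 n this]; rfl
  obtain ⟨n, hn, hn2⟩ : ∃ n : ℕ, 1 ≤ n ∧ ∀ k : ℤ, ((g ^ n) ^ k) x ≠ y := by
    by_cases hex : ∃ i : ℤ, (g ^ i) x = y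
    · obtain ⟨i, hi⟩ := hex
      refine ⟨i.natAbs + 1, by omega, ?_⟩
      intro k hk
      rw [← zpow_natCast, ← zpow_mul] at hk
      have h1 : (g ^ (((i.natAbs + 1 : ℕ) : ℤ) * k - i)) x = x := by
        rw [sub_eq_neg_add, zpow_add, Equiv.Perm.mul_apply, hk, ← hi, ← Equiv.Perm.mul_apply,
          ← zpow_add]
        simp
      have h2 := hfx _ h1
      have h3 : ((i.natAbs + 1 : ℕ) : ℤ) * k = i := by omega
      have h4 : i ≠ 0 := by
        rintro rfl
        exact hxy (by simpa using hi)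
      have h5 : (i.natAbs + 1) * k.natAbs = i.natAbs := by
        have := congrArg Int.natAbs h3
        rwa [Int.natAbs_mul, Int.natAbs_natCast] at this
      have h6 : k.natAbs ≠ 0 := by
        intro h6
        rw [h6, mul_zero] at h5
        omega
      have h7 : i.natAbs + 1 ≤ (i.natAbs + 1) * k.natAbs :=
        Nat.le_mul_of_pos_right _ (by omega)
      omega
    · refine ⟨1, le_refl _, ?_⟩
      intro k hk
      rw [pow_one] at hk
      exact hex ⟨k, hk⟩
  have hn3 : ∀ k : ℤ, ((g ^ n) ^ k) y ≠ x := by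
    intro k hk
    apply hn2 (-k)
    rw [← hk, ← Equiv.Perm.mul_apply, ← zpow_add]
    simp
  refine ⟨n, hn, (XB d h p τ)ᶜ, XB d h p τ, ⟨p, ?_⟩, ⟨x, ?_⟩, disjoint_compl_left, ?_, ?_⟩
  · rintro (h1 | h1)
    · rw [hd.self, ← hx, hd.symm x p, hpx] at h1
      omega
    · rw [hd.self, ← hy, hd.symm y p, hpy] at h1
      omega
  · left
    rw [← hx, hd.self, hpx, add_zero]
  · intro i hi v hv
    have hGp : ((g ^ n) ^ i) p = p := by
      rw [← zpow_natCast, ← zpow_mul]; exact fixpow hp _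
    have hGi : Isom d ((g ^ n) ^ i) := (hg.pow n).zpow i
    have hi' : ((n : ℤ) * i) ≠ 0 := mul_ne_zero (by omega) hi
    have hGx : ((g ^ n) ^ i) x ≠ x := by
      rw [← zpow_natCast, ← zpow_mul]
      exact fun H => hi' (hfx _ H)
    have hGy : ((g ^ n) ^ i) y ≠ y := by
      rw [← zpow_natCast, ← zpow_mul]
      exact fun H => hi' (hfy _ H)
    have hGxy := hn2 i
    have hGyx := hn3 i
    set G := (g ^ n) ^ i with hG
    have hGv : ∀ z, d p z = τ → d p v = τ + d z v → ∀ z', d p z' = τ →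
        d p (G v) = τ + d z' (G v) → G z = z' := by
      intro z hz h1 z' hz' h2
      apply hd.same (a := p) (v := G v)
      · rw [← hGp, hGi, hGi, hGi, h1, hz]
      · rw [h2, hz']
      · rw [hz', ← hz]
        nth_rewrite 1 [← hGp]
        rw [hGi]
    rintro (h2 | h2) <;> rcases hv with h1 | h1
    · exact hGx (hGv x hpx h1 x hpx h2)
    · exact hGyx (hGv y hpy h1 x hpx h2)
    · exact hGxy (hGv x hpx h1 y hpy h2)
    · exact hGy (hGv y hpy h1 y hpy h2)
  · intro j hj v hv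
    exact push2 hd hh ah hv hj

theorem PPsep {g h : Equiv.Perm V} {p q : V} (hd : TreeDist d) (hg : Isom d g)
    (hh : Isom d h) (hD : 0 < d p q)
    (cg : ∀ i : ℤ, i ≠ 0 → d q ((g ^ i) q) = 2 * d p q + d p ((g ^ i) p))
    (ch : ∀ i : ℤ, i ≠ 0 → d p ((h ^ i) p) = 2 * d p q + d q ((h ^ i) q)) : PP g h := by
  have main : ∀ (k : Equiv.Perm V) (a b : V), Isom d k → 0 < d a b →
      (d b (k b) = 2 * d a b + d a (k a)) → ∀ v, d a v = d a b + d b v →
      d b (k v) = d a b + d a (k v) := by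
    intro k a b hk hab hc v hv
    have e1 : d (k a) (k v) = d a v := hk _ _
    have e2 : d (k b) (k v) = d b v := hk _ _
    have e3 : d (k a) (k b) = d a b := hk _ _
    have h4 := hd.four b (k a) (k b) (k v)
    have t1 := hd.tri b a (k a)
    have t2 := hd.tri a (k a) (k v)
    have t3 := hd.tri b a (k v)
    have s1 := hd.symm b a
    omega
  have s1 := hd.symm q p
  refine ⟨{v | d q v = d p q + d p v}, {v | d p v = d p q + d q v}, ⟨p, ?_⟩, ⟨q, ?_⟩, ?_, ?_, ?_⟩
  · simp only [Set.mem_ofPred_eq, hd.self]; omega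
  · simp only [Set.mem_ofPred_eq, hd.self]; omega
  · rw [Set.disjoint_left]
    intro v h1 h2
    simp only [Set.mem_ofPred_eq] at h1 h2
    omega
  · intro i hi v hv
    exact main (g ^ i) p q (hg.zpow i) hD (cg i hi) v hv
  · intro i hi v hv
    have := main (h ^ i) q p (hh.zpow i) (by omega) (by rw [s1]; exact ch i hi) v
      (by rw [s1]; exact hv)
    rw [s1] at this
    exact this

theorem BE {g : Equiv.Perm V} {p q : V} (hd : TreeDist d) (hg : Isom d g) (hp : g p = p)
    (hD : 0 < d p q) (hmin : ∀ i : ℤ, i ≠ 0 → ∀ v, (g ^ i) v = v → d p q ≤ d v q) :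
    ∀ i : ℤ, i ≠ 0 → d q ((g ^ i) q) = 2 * d p q + d p ((g ^ i) p) := by
  intro i hi
  have hGp := fixpow hp i
  have hGi := hg.zpow i
  have hm := hmin i hi
  set G := g ^ i with hG
  rw [hGp, hd.self, add_zero]
  have e1 : d p (G q) = d p q := by
    nth_rewrite 1 [← hGp]; rw [hGi]
  by_contra hne
  have t1 := hd.tri q p (G q)
  have s1 := hd.symm q p
  obtain ⟨k, hk⟩ := hd.even q p (G q)
  have hle : d q (G q) ≤ 2 * d p q - 2 := by omega
  obtain ⟨p', hp1, hp2⟩ := hd.step p q (by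
    rintro rfl
    rw [hd.self] at hD
    omega)
  have f1 : d p (G p') = 1 := by
    rw [← hp1]
    nth_rewrite 1 [← hGp]; rw [hGi]
  have f2 : d (G p') (G q) = d p q - 1 := by rw [hGi, hp2]
  have h4 := hd.four p p' q (G q)
  have h5 := hd.four p p' (G q) (G p')
  have s2 := hd.symm (G q) (G p')
  have n1 := hd.nonneg p' (G p')
  have hz : d p' (G p') = 0 := by omega
  have := hm p' (hd.eq_of _ _ hz).symm
  omega

theorem BH1 {g : Equiv.Perm V} {p q : V} {τ : ℤ} (hd : TreeDist d) (hg : Isom d g)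
    (ag : Axis d g p τ) (hD : 0 < d p q) (hmin : ∀ v, d v (g v) ≤ τ → d p q ≤ d v q) :
    ∀ n : ℕ, 1 ≤ n → d q ((g ^ n) p) = d p q + n * τ := by
  have hpos := ag.pos
  have hone := ag.one
  obtain ⟨p', hp1, hp2⟩ := hd.step p q (by
    rintro rfl
    rw [hd.self] at hD
    omega)
  have a1 : d p' (g p) = τ + 1 := by
    obtain ⟨k, hk⟩ := hd.even p p' (g p)
    have t1 := hd.tri p p' (g p)
    have t2 := hd.tri p' p (g p)
    have s1 := hd.symm p' p
    by_contra hne
    have h1 : d p' (g p) = τ - 1 := by omega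
    have t3 := hd.tri p' (g p) (g p')
    have e1 : d (g p) (g p') = 1 := by rw [hg, hp1]
    have := hmin p' (by omega)
    omega
  have a2 : d q (g p) = d p q + τ := by
    have h4 := hd.four p (g p) q p'
    have s1 := hd.symm p' (g p)
    have s2 := hd.symm p' q
    have s3 := hd.symm q (g p)
    have t1 := hd.tri q p (g p)
    have s4 := hd.symm p q
    omega
  intro n hn
  obtain ⟨m, rfl⟩ : ∃ m, n = m + 1 := ⟨n - 1, by omega⟩
  have b1 : d p ((g ^ (m + 1)) p) = (m + 1) * τ := by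
    have := ag.pow hd hg (m + 1); push_cast at this; exact this
  have b2 : d (g p) ((g ^ (m + 1)) p) = m * τ := by
    rw [pow_succ', Equiv.Perm.mul_apply, hg, ag.pow hd hg m]
  have h4 := hd.four p (g p) ((g ^ (m + 1)) p) q
  have s1 := hd.symm q (g p)
  have s2 := hd.symm q ((g ^ (m + 1)) p)
  have t1 := hd.tri q p ((g ^ (m + 1)) p)
  have s3 := hd.symm q p
  rw [Nat.cast_add, Nat.cast_one]
  rw [add_mul, one_mul] at b1 ⊢
  have hmt : 0 ≤ (m : ℤ) * τ := by positivity
  omega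

theorem BH {g : Equiv.Perm V} {p q : V} {τ : ℤ} (hd : TreeDist d) (hg : Isom d g)
    (ag : Axis d g p τ) (hD : 0 < d p q) (hmin : ∀ v, d v (g v) ≤ τ → d p q ≤ d v q) :
    ∀ i : ℤ, i ≠ 0 → d q ((g ^ i) q) = 2 * d p q + d p ((g ^ i) p) := by
  have hpos := ag.pos
  have key : ∀ n : ℕ, 1 ≤ n → d q ((g ^ n) q) = 2 * d p q + d p ((g ^ n) p) := by
    intro n hn
    have h1 := BH1 hd hg ag hD hmin n hn
    have h2 := BH1 hd hg.inv (ag.inv hd hg) hD (by
      intro v hv
      apply hmin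
      have := hg (g⁻¹ v) v
      rw [aiv] at this
      rw [this, hd.symm]
      exact hv) n hn
    have h3 : d q ((g⁻¹ ^ n) p) = d ((g ^ n) q) p := by
      have := (hg.pow n) q ((g⁻¹ ^ n) p)
      rw [← Equiv.Perm.mul_apply, inv_pow, mul_inv_cancel, Equiv.Perm.one_apply] at this
      rw [inv_pow]
      exact this.symm
    have h4 := ag.pow hd hg n
    have h5 : d ((g ^ n) p) ((g ^ n) q) = d p q := hg.pow n p q
    have h6 := hd.four q p ((g ^ n) p) ((g ^ n) q)
    have s1 := hd.symm q p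
    have s2 := hd.symm p ((g ^ n) q)
    have t1 := hd.tri q p ((g ^ n) q)
    have t2 := hd.tri p ((g ^ n) p) ((g ^ n) q)
    have hnt : 0 < (n : ℤ) * τ := by positivity
    omega
  intro i hi
  obtain ⟨n, rfl | rfl⟩ := i.eq_nat_or_neg
  · rw [zpow_natCast]; exact key n (by omega)
  · have e : ∀ v, d v ((g ^ (-(n : ℤ))) v) = d v ((g ^ n) v) := by
      intro v
      rw [zpow_neg, zpow_natCast, ← hg.pow n v, aiv, hd.symm]
    rw [e, e]
    exact key n (by omega)

/-- vertices fixed by some positive power -/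
def TF (g : Equiv.Perm V) : Set V := {v | ∃ n : ℕ, 1 ≤ n ∧ (g ^ n) v = v}

theorem mem_TF_of_zpow {g : Equiv.Perm V} {v : V} {i : ℤ} (hi : i ≠ 0) (h : (g ^ i) v = v) :
    v ∈ TF g := by
  obtain ⟨n, rfl | rfl⟩ := i.eq_nat_or_neg
  · rw [zpow_natCast] at h
    exact ⟨n, by omega, h⟩
  · rw [zpow_neg, zpow_natCast] at h
    refine ⟨n, by omega, ?_⟩
    nth_rewrite 1 [← h]
    rw [aiv]

theorem exists_min {W : Type*} (f : W → ℤ) (hf : ∀ w, 0 ≤ f w) (P : W → Prop)
    (hP : ∃ w, P w) : ∃ w, P w ∧ ∀ w', P w' → f w ≤ f w' := by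
  classical
  have h1 : ∃ n : ℕ, ∃ w, P w ∧ f w = n := by
    obtain ⟨w, hw⟩ := hP
    exact ⟨(f w).toNat, w, hw, by rw [Int.toNat_of_nonneg (hf w)]⟩
  obtain ⟨w, hw, hw2⟩ := Nat.find_spec h1
  refine ⟨w, hw, ?_⟩
  intro w' hw'
  rw [hw2]
  have h2 : Nat.find h1 ≤ (f w').toNat :=
    Nat.find_min' h1 ⟨w', hw', by rw [Int.toNat_of_nonneg (hf w')]⟩
  have h3 := Int.toNat_of_nonneg (hf w')
  omega

theorem hyperbolic {g : Equiv.Perm V} {p : V} (hd : TreeDist d) (hg : Isom d g)
    (hTF : TF g = ∅) (hmin : ∀ v, d p (g p) ≤ d v (g v)) : Axis d g p (d p (g p)) := by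
  have hne : ∀ v (n : ℕ), 1 ≤ n → (g ^ n) v ≠ v := by
    intro v n hn h
    have : v ∈ TF g := ⟨n, hn, h⟩
    rw [hTF] at this
    exact this
  have hne1 : p ≠ g p := by
    intro h
    exact hne p 1 (le_refl _) (by rw [pow_one]; exact h.symm)
  have hpos : 0 < d p (g p) := by
    have h0 := hd.nonneg p (g p)
    have h1 : d p (g p) ≠ 0 := fun h => hne1 (hd.eq_of _ _ h)
    omega
  refine ⟨hpos, rfl, ?_⟩
  by_contra hcon
  obtain ⟨k, hk⟩ := hd.even p (g p) (g (g p))
  have e1 : d (g p) (g (g p)) = d p (g p) := hg _ _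
  have t1 := hd.tri p (g p) (g (g p))
  obtain ⟨p', hp1, hp2⟩ := hd.step p (g p) hne1
  have e2 : d (g p) (g p') = 1 := by rw [hg, hp1]
  have e3 : d (g p') (g (g p)) = d p (g p) - 1 := by rw [hg, hp2]
  have h4 := hd.four (g p) (g p') (g (g p)) p
  have s1 := hd.symm (g p) p
  have s2 := hd.symm (g (g p)) p
  have s3 := hd.symm (g p') p
  have t2 := hd.tri p (g p') (g p)
  have s4 := hd.symm (g p') (g p)
  have s5 := hd.symm (g (g p)) (g p)
  have s6 := hd.symm (g (g p)) (g p')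
  have e4 : d p (g p') = d p (g p) - 1 := by omega
  have h5 := hd.four p p' (g p) (g p')
  have h6 := hmin p'
  rcases eq_or_lt_of_le (show (1 : ℤ) ≤ d p (g p) by omega) with h7 | h7
  · have a1 : p' = g p := hd.eq_of _ _ (by omega)
    have a2 : p = g p' := hd.eq_of _ _ (by omega)
    apply hne p 2 (by norm_num)
    rw [pow_two, Equiv.Perm.mul_apply, ← a1, ← a2]
  · omega

/-- the main dichotomy -/
theorem dichotomy_aux {g h : Equiv.Perm V} [Nonempty V] (hd : TreeDist d) (hg : Isom d g)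
    (hh : Isom d h) :
    (∃ n m : ℕ, 1 ≤ n ∧ 1 ≤ m ∧ PP (g ^ n) (h ^ m)) ∨
    (∃ n m : ℕ, 1 ≤ n ∧ 1 ≤ m ∧ CV (g ^ n) (h ^ m)) := by
  have EH : ∀ g h : Equiv.Perm V, Isom d g → Isom d h → (TF g).Nonempty → TF h = ∅ →
      (∃ n m : ℕ, 1 ≤ n ∧ 1 ≤ m ∧ PP (g ^ n) (h ^ m)) ∨
      (∃ n m : ℕ, 1 ≤ n ∧ 1 ≤ m ∧ CV (g ^ n) (h ^ m)) := by
    intro g h hg hh hTg hTh
    obtain ⟨o, -, ho⟩ := exists_min (fun v => d v (h v)) (fun v => hd.nonneg _ _) (fun _ => True)
      ⟨Classical.arbitrary V, trivial⟩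
    obtain ⟨⟨p, q⟩, ⟨hp, hq⟩, hpq⟩ := exists_min (fun w : V × V => d w.1 w.2)
      (fun w => hd.nonneg _ _) (fun w => w.1 ∈ TF g ∧ d w.2 (h w.2) ≤ d o (h o)) (by
        obtain ⟨v, hv⟩ := hTg
        exact ⟨(v, o), hv, le_refl _⟩)
    dsimp only at hp hq hpq
    have aq : Axis d h q (d q (h q)) := hyperbolic hd hh hTh
      (fun v => le_trans hq (ho v trivial))
    obtain ⟨n, hn, hnp⟩ := hp
    by_cases hD : 0 < d p q
    · left
      refine ⟨n, 1, hn, le_refl _, ?_⟩
      rw [pow_one]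
      refine PPsep hd (hg.pow n) hh hD ?_ ?_
      · apply BE hd (hg.pow n) hnp hD
        intro i hi v hv
        apply hpq (v, q)
        refine ⟨?_, hq⟩
        rw [← zpow_natCast, ← zpow_mul] at hv
        exact mem_TF_of_zpow (mul_ne_zero (by omega) hi) hv
      · have := BH (p := q) (q := p) hd hh aq (by rw [hd.symm]; exact hD) (by
          intro v hv
          rw [hd.symm q p, hd.symm v p]
          exact hpq (p, v) ⟨⟨n, hn, hnp⟩, le_trans hv hq⟩)
        rw [hd.symm q p] at this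
        exact this
    · have h0 : p = q := hd.eq_of _ _ (le_antisymm (not_lt.mp hD) (hd.nonneg _ _))
      subst h0
      by_cases hcv : ∀ i : ℕ, 1 ≤ i → ¬ CV ((g ^ n) ^ i) h
      · obtain ⟨k, hk, hk2⟩ := meetEH hd (hg.pow n) hh hnp aq hcv
        left
        refine ⟨n * k, 2, Nat.mul_pos hn hk, by norm_num, ?_⟩
        rw [pow_mul]
        exact hk2
      · right
        push Not at hcv
        obtain ⟨i, hi, hcv⟩ := hcv
        refine ⟨n * i, 1, Nat.mul_pos hn hi, le_refl _, ?_⟩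
        rw [pow_mul, pow_one]
        exact hcv
  rcases Set.eq_empty_or_nonempty (TF g) with hTg | hTg <;>
    rcases Set.eq_empty_or_nonempty (TF h) with hTh | hTh
  · -- HH
    obtain ⟨o, -, ho⟩ := exists_min (fun v => d v (g v)) (fun v => hd.nonneg _ _) (fun _ => True)
      ⟨Classical.arbitrary V, trivial⟩
    obtain ⟨o', -, ho'⟩ := exists_min (fun v => d v (h v)) (fun v => hd.nonneg _ _) (fun _ => True)
      ⟨Classical.arbitrary V, trivial⟩
    obtain ⟨⟨p, q⟩, ⟨hp, hq⟩, hpq⟩ := exists_min (fun w : V × V => d w.1 w.2)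
      (fun w => hd.nonneg _ _) (fun w => d w.1 (g w.1) ≤ d o (g o) ∧ d w.2 (h w.2) ≤ d o' (h o'))
      ⟨(o, o'), le_refl _, le_refl _⟩
    dsimp only at hp hq hpq
    have ap : Axis d g p (d p (g p)) := hyperbolic hd hg hTg
      (fun v => le_trans hp (ho v trivial))
    have aq : Axis d h q (d q (h q)) := hyperbolic hd hh hTh
      (fun v => le_trans hq (ho' v trivial))
    by_cases hD : 0 < d p q
    · left
      refine ⟨1, 1, le_refl _, le_refl _, ?_⟩
      rw [pow_one, pow_one]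
      refine PPsep hd hg hh hD ?_ ?_
      · apply BH hd hg ap hD
        intro v hv
        exact hpq (v, q) ⟨le_trans hv hp, hq⟩
      · have := BH (p := q) (q := p) hd hh aq (by rw [hd.symm]; exact hD) (by
          intro v hv
          rw [hd.symm q p, hd.symm v p]
          exact hpq (p, v) ⟨hp, le_trans hv hq⟩)
        rw [hd.symm q p] at this
        exact this
    · have h0 : p = q := hd.eq_of _ _ (le_antisymm (not_lt.mp hD) (hd.nonneg _ _))
      subst h0
      have hap := ap.pos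
      have haq := aq.pos
      obtain ⟨a, ha⟩ : ∃ a : ℕ, d p (g p) = a := ⟨(d p (g p)).toNat, by omega⟩
      obtain ⟨b, hb⟩ : ∃ b : ℕ, d p (h p) = b := ⟨(d p (h p)).toNat, by omega⟩
      rw [ha] at ap hap
      rw [hb] at aq haq
      have ha1 : 1 ≤ a := by exact_mod_cast hap
      have hb1 : 1 ≤ b := by exact_mod_cast haq
      have ap2 : Axis d (g ^ b) p ((b : ℤ) * a) := ap.pow_axis hd hg hb1
      have aq2 : Axis d (h ^ a) p ((b : ℤ) * a) := by
        rw [mul_comm]
        exact aq.pow_axis hd hh ha1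
      by_cases hcv : CV (g ^ b) (h ^ a)
      · right
        exact ⟨b, a, hb1, ha1, hcv⟩
      · left
        refine ⟨b * 4, a * 4, by omega, by omega, ?_⟩
        rw [pow_mul, pow_mul]
        exact meetHH hd (hg.pow b) (hh.pow a) ap2 aq2 hcv
  · rcases EH h g hh hg hTh hTg with ⟨n, m, hn, hm, H⟩ | ⟨n, m, hn, hm, H⟩
    · exact Or.inl ⟨m, n, hm, hn, H.symm⟩
    · exact Or.inr ⟨m, n, hm, hn, H.symm⟩
  · exact EH g h hg hh hTg hTh
  · -- EE
    obtain ⟨⟨p, q⟩, ⟨hp, hq⟩, hpq⟩ := exists_min (fun w : V × V => d w.1 w.2)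
      (fun w => hd.nonneg _ _) (fun w => w.1 ∈ TF g ∧ w.2 ∈ TF h) (by
        obtain ⟨v, hv⟩ := hTg
        obtain ⟨w, hw⟩ := hTh
        exact ⟨(v, w), hv, hw⟩)
    dsimp only at hp hq hpq
    obtain ⟨n, hn, hnp⟩ := hp
    obtain ⟨m, hm, hmq⟩ := hq
    by_cases hD : 0 < d p q
    · left
      refine ⟨n, m, hn, hm, ?_⟩
      refine PPsep hd (hg.pow n) (hh.pow m) hD ?_ ?_
      · apply BE hd (hg.pow n) hnp hD
        intro i hi v hv
        apply hpq (v, q)
        refine ⟨?_, ⟨m, hm, hmq⟩⟩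
        rw [← zpow_natCast, ← zpow_mul] at hv
        exact mem_TF_of_zpow (mul_ne_zero (by omega) hi) hv
      · have := BE (p := q) (q := p) hd (hh.pow m) hmq (by rw [hd.symm]; exact hD) (by
          intro i hi v hv
          rw [hd.symm q p, hd.symm v p]
          apply hpq (p, v)
          refine ⟨⟨n, hn, hnp⟩, ?_⟩
          rw [← zpow_natCast, ← zpow_mul] at hv
          exact mem_TF_of_zpow (mul_ne_zero (by omega) hi) hv)
        rw [hd.symm q p] at this
        exact this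
    · have h0 : p = q := hd.eq_of _ _ (le_antisymm (not_lt.mp hD) (hd.nonneg _ _))
      subst h0
      right
      exact ⟨n, m, hn, hm, p, by rw [hmq, hnp, hmq]⟩

/-- For two isometries of a tree, either some equal positive powers freely generate a free group,
or some positive powers commute at some vertex. -/
theorem dichotomy {g h : Equiv.Perm V} [Nonempty V] (hd : TreeDist d) (hg : Isom d g)
    (hh : Isom d h) :
    (∃ n : ℕ, 1 ≤ n ∧ Function.Injective (FreeGroup.lift ![g ^ n, h ^ n])) ∨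
    (∃ n m : ℕ, 1 ≤ n ∧ 1 ≤ m ∧ ∃ v, (g ^ n) ((h ^ m) v) = (h ^ m) ((g ^ n) v)) := by
  rcases dichotomy_aux hd hg hh with ⟨n, m, hn, hm, H⟩ | H
  · left
    refine ⟨n * m, Nat.mul_pos hn hm, ?_⟩
    have := (H.pow hm hn).free
    rwa [← pow_mul, ← pow_mul, mul_comm m n] at this
  · exact Or.inr H

end PingPong

end Pool.Agent.PowAlt
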