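import Mathlib
import Pool.Agent.PowAlt.Tree

set_option autoImplicit false

/-!
# The Cayley tree of a free group
-/

namespace Pool.Agent.PowAlt

open FreeGroup

section CP

variable {β : Type*} [DecidableEq β]

/-- length of the longest common prefix -/
def cp : List β → List β → ℕ
  | [], _ => 0
  | _ :: _, [] => 0
  | x :: a, y :: b => if x = y then cp a b + 1 else 0

theorem cp_comm : ∀ a b : List β, cp a b = cp b a
  | [], [] => rfl
  | [], _ :: _ => rfl
  | _ :: _, [] => rfl
  | x :: a, y :: b => by
    unfold cp
    by_cases h : x = y
    · rw [if_pos h, if_pos h.symm, cp_comm a b]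
    · rw [if_neg h, if_neg (fun h' => h h'.symm)]

theorem cp_self : ∀ a : List β, cp a a = a.length
  | [] => rfl
  | x :: a => by
    unfold cp
    rw [if_pos rfl, cp_self a, List.length_cons]

theorem cp_ultra : ∀ a b c : List β, min (cp a b) (cp b c) ≤ cp a c
  | [], b, c => by simp [cp]
  | x :: a, [], c => by simp [cp]
  | x :: a, y :: b, [] => by simp [cp]
  | x :: a, y :: b, z :: c => by
    have ih := cp_ultra a b c
    unfold cp
    by_cases h : x = y
    · subst h
      by_cases h2 : x = z
      · subst h2
        simp only [if_true]
        omega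
      · simp [h2]
    · simp [h]

end CP

section Free

variable {α : Type*} [DecidableEq α]

theorem red_tail {x : α × Bool} {L : List (α × Bool)} (h : IsReduced (x :: L)) : IsReduced L :=
  List.IsChain.tail h

theorem isReduced_invRev {L : List (α × Bool)} (h : IsReduced L) : IsReduced (invRev L) := by
  rw [isReduced_iff_reduce_eq, reduce_invRev, h.reduce_eq]

theorem length_reduce : ∀ L₁ L₂ : List (α × Bool), IsReduced L₁ → IsReduced L₂ →
    (reduce (invRev L₁ ++ L₂)).length + 2 * cp L₁ L₂ = L₁.length + L₂.length
  | [], L₂, _, h2 => by
    simp [cp, h2.reduce_eq]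
  | x :: a, [], h1, _ => by
    rw [List.append_nil, (isReduced_invRev h1).reduce_eq, invRev_length]
    simp [cp]
  | x :: a, y :: b, h1, h2 => by
    by_cases h : x = y
    · subst h
      have ih := length_reduce a b (red_tail h1) (red_tail h2)
      have e : reduce (invRev (x :: a) ++ x :: b) = reduce (invRev a ++ b) := by
        rw [← toWord_mk, ← toWord_mk]
        congr 1
        rw [← mul_mk, ← mul_mk, ← inv_mk, ← inv_mk, ← List.singleton_append, ← mul_mk,
          ← List.singleton_append (l := b), ← mul_mk]
        group
      rw [e]
      unfold cp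
      rw [if_pos rfl]
      simp only [List.length_cons]
      omega
    · have hr : IsReduced (invRev (x :: a) ++ y :: b) := by
        have h3 := isReduced_invRev h1
        unfold FreeGroup.IsReduced at *
        rw [List.isChain_append]
        refine ⟨h3, h2, ?_⟩
        intro u hu v hv
        rw [invRev_cons] at hu
        simp only [invRev, List.map_cons, List.map_nil, List.reverse_cons, List.reverse_nil,
          List.nil_append, List.getLast?_append, List.getLast?_singleton, Option.some_or,
          Option.mem_def, Option.some.injEq] at hu
        simp only [List.head?_cons, Option.mem_def, Option.some.injEq] at hv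
        subst hu hv
        intro h4
        simp only at h4 ⊢
        by_contra h5
        apply h
        ext
        · exact h4
        · revert h5
          cases x.2 <;> cases y.2 <;> simp
      rw [hr.reduce_eq, List.length_append, invRev_length]
      unfold cp
      rw [if_neg h]
      rfl

/-- the distance in the Cayley tree -/
def fd (u v : FreeGroup α) : ℤ := (norm (u⁻¹ * v) : ℤ)

theorem fd_eq (u v : FreeGroup α) :
    fd u v = norm u + norm v - 2 * cp u.toWord v.toWord := by
  have h := length_reduce u.toWord v.toWord isReduced_toWord isReduced_toWord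
  have e : reduce (invRev u.toWord ++ v.toWord) = (u⁻¹ * v).toWord := by
    rw [toWord_mul, toWord_inv]
  rw [e] at h
  unfold fd FreeGroup.norm
  omega

theorem fd_mul (w u v : FreeGroup α) : fd (w * u) (w * v) = fd u v := by
  unfold fd
  congr 2
  group

theorem treeDist_fd : TreeDist (fd (α := α)) where
  symm x y := by
    unfold fd
    rw [← norm_inv_eq]
    congr 2
    group
  nonneg x y := by unfold fd; positivity
  self x := by unfold fd; simp
  eq_of x y h := by
    unfold fd at h
    have h1 : norm (x⁻¹ * y) = 0 := by exact_mod_cast h
    rw [FreeGroup.norm_eq_zero] at h1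
    exact inv_mul_eq_one.mp h1
  four x y z w := by
    have t : ∀ a b, fd a b = fd (x⁻¹ * a) (x⁻¹ * b) := fun a b => (fd_mul _ _ _).symm
    rw [t x z, t y w, t x y, t z w, t x w, t y z]
    simp only [fd_eq, inv_mul_cancel, FreeGroup.norm_one, toWord_one]
    have c0 : ∀ l : List (α × Bool), cp [] l = 0 := fun l => rfl
    simp only [c0]
    have u1 := cp_ultra (x⁻¹ * y).toWord (x⁻¹ * z).toWord (x⁻¹ * w).toWord
    omega
  even x y z := by
    simp only [fd_eq]
    exact ⟨norm x + norm y + norm z - cp x.toWord y.toWord - cp y.toWord z.toWord
      - cp x.toWord z.toWord, by ring⟩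
  step x y hxy := by
    have h1 : (x⁻¹ * y).toWord ≠ [] := by
      rw [Ne, toWord_eq_nil_iff, inv_mul_eq_one]
      exact hxy
    obtain ⟨a, L, hL⟩ := List.exists_cons_of_ne_nil h1
    refine ⟨x * mk [a], ?_, ?_⟩
    · unfold fd
      rw [inv_mul_cancel_left]
      unfold FreeGroup.norm
      rw [toWord_mk]
      simp
    · have hred : IsReduced (a :: L) := by rw [← hL]; exact isReduced_toWord
      have hredL : IsReduced L := red_tail hred
      have e : (x * mk [a])⁻¹ * y = mk L := by
        have : x⁻¹ * y = mk [a] * mk L := by
          rw [mul_mk, List.singleton_append, ← hL, mk_toWord]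
        rw [mul_inv_rev, mul_assoc, this]
        group
      unfold fd
      rw [e]
      unfold FreeGroup.norm
      rw [toWord_mk, hredL.reduce_eq, hL]
      simp

end Free

end Pool.Agent.PowAlt
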