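import Mathlib
import Pool.Agent.PowAlt.Free

set_option autoImplicit false

/-!
# The groups `F(Q) ⋊ (F × F)` and the power alternative

`Q` is a group given by a presentation with generators `α` and relators `R`, `F = FreeGroup α`, and
`F × F` acts on the free group with basis `Q` by permuting the basis, `(u, v) • q = u q v⁻¹`.
-/

namespace Pool.Agent.PowAlt

open FreeGroup (of mk mk_toWord norm_mk_le)

/-- the group has elements of infinite order only -/
def PowerAlternative (G : Type*) [Group G] : Prop :=
  ∀ g h : G, ∃ n : ℕ, 1 ≤ n ∧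
    (Commute (g ^ n) (h ^ n) ∨ Nonempty (Subgroup.closure {g ^ n, h ^ n} ≃* FreeGroup (Fin 2)))

/-- a permutation of a basis gives an automorphism of the free group -/
def permAut (X : Type*) : Equiv.Perm X →* MulAut (FreeGroup X) where
  toFun e := FreeGroup.freeGroupCongr e
  map_one' := by
    ext x
    simp
  map_mul' e f := by
    ext x
    simp [FreeGroup.map.comp]

@[simp] theorem permAut_of {X : Type*} (e : Equiv.Perm X) (x : X) :
    permAut X e (of x) = of (e x) := by
  simp [permAut]

theorem norm_permAut {X : Type*} [DecidableEq X] (e : Equiv.Perm X) (w : FreeGroup X) :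
    (permAut X e w).norm = w.norm := by
  have key : ∀ (e : Equiv.Perm X) (w : FreeGroup X), (permAut X e w).norm ≤ w.norm := by
    intro e w
    have : permAut X e w = mk (w.toWord.map fun x => (e x.1, x.2)) := by
      nth_rewrite 1 [← mk_toWord (x := w)]
      rfl
    rw [this]
    refine norm_mk_le.trans ?_
    rw [List.length_map]
    exact le_refl _
  refine le_antisymm (key e w) ?_
  have := key e⁻¹ (permAut X e w)
  rwa [← MulAut.mul_apply, ← map_mul, inv_mul_cancel, map_one, MulAut.one_apply] at this

section

variable {α : Type*} (R : Set (FreeGroup α))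

/-- the left-right multiplication action on `Q` -/
def lr : FreeGroup α × FreeGroup α →* Equiv.Perm (PresentedGroup R) where
  toFun p :=
    { toFun := fun q => PresentedGroup.mk R p.1 * q * (PresentedGroup.mk R p.2)⁻¹
      invFun := fun q => (PresentedGroup.mk R p.1)⁻¹ * q * PresentedGroup.mk R p.2
      left_inv := fun q => by group
      right_inv := fun q => by group }
  map_one' := by
    ext q
    simp
  map_mul' a b := by
    ext q
    simp [mul_assoc]

theorem lr_apply (p : FreeGroup α × FreeGroup α) (q : PresentedGroup R) :
    lr R p q = PresentedGroup.mk R p.1 * q * (PresentedGroup.mk R p.2)⁻¹ := rfl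

/-- the action of `F × F` on `F(Q)` -/
def act : FreeGroup α × FreeGroup α →* MulAut (FreeGroup (PresentedGroup R)) :=
  (permAut (PresentedGroup R)).comp (lr R)

theorem act_of (p : FreeGroup α × FreeGroup α) (q : PresentedGroup R) :
    act R p (of q) = of (PresentedGroup.mk R p.1 * q * (PresentedGroup.mk R p.2)⁻¹) := by
  unfold act
  rw [MonoidHom.comp_apply, permAut_of, lr_apply]

/-- the group `F(Q) ⋊ (F × F)` -/
abbrev GQ : Type _ :=
  FreeGroup (PresentedGroup R) ⋊[act R] (FreeGroup α × FreeGroup α)

/-- the action of `GQ` on the Cayley tree of `F(Q)` -/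
def actK : GQ R →* Equiv.Perm (FreeGroup (PresentedGroup R)) where
  toFun g :=
    { toFun := fun x => g.left * act R g.right x
      invFun := fun x => act R g.right⁻¹ (g.left⁻¹ * x)
      left_inv := fun x => by
        dsimp only
        rw [inv_mul_cancel_left, ← MulAut.mul_apply, ← map_mul, inv_mul_cancel, map_one,
          MulAut.one_apply]
      right_inv := fun x => by
        dsimp only
        rw [← MulAut.mul_apply, ← map_mul, mul_inv_cancel, map_one, MulAut.one_apply,
          mul_inv_cancel_left] }
  map_one' := by
    ext x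
    simp
  map_mul' a b := by
    ext x
    simp [mul_assoc]

theorem actK_apply (g : GQ R) (x : FreeGroup (PresentedGroup R)) :
    actK R g x = g.left * act R g.right x := rfl

theorem isom_actK [DecidableEq (PresentedGroup R)] (g : GQ R) :
    Isom (fd (α := PresentedGroup R)) (actK R g) := by
  intro x y
  rw [actK_apply, actK_apply, fd_mul]
  unfold fd
  rw [← map_inv, ← map_mul]
  unfold act
  rw [MonoidHom.comp_apply, norm_permAut]

/-- left multiplication on the Cayley tree -/
def leftMul (β : Type*) : FreeGroup β →* Equiv.Perm (FreeGroup β) := MulAction.toPermHom _ _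

theorem leftMul_apply {β : Type*} (g x : FreeGroup β) : leftMul β g x = g * x := rfl

theorem isom_leftMul {β : Type*} [DecidableEq β] (g : FreeGroup β) :
    Isom (fd (α := β)) (leftMul β g) := by
  intro x y
  rw [leftMul_apply, leftMul_apply, fd_mul]

end

theorem commute_of_pow_left {G : Type*} [Group G] [IsMulTorsionFree G] {a b : G} {n : ℕ}
    (hn : n ≠ 0) (h : Commute (a ^ n) b) : Commute a b := by
  have h1 : (b * a * b⁻¹) ^ n = a ^ n := by
    rw [conj_pow, ← h.eq, mul_inv_cancel_right]
  have h2 := pow_left_injective hn h1
  have h3 : b * a = a * b := by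
    exact mul_inv_eq_iff_eq_mul.mp h2
  exact h3.symm

theorem commute_of_pow {G : Type*} [Group G] [IsMulTorsionFree G] {a b : G} {n m : ℕ}
    (hn : n ≠ 0) (hm : m ≠ 0) (h : Commute (a ^ n) (b ^ m)) : Commute a b :=
  (commute_of_pow_left hm (commute_of_pow_left hn h).symm).symm

/-- a freely generating pair generates a free group of rank two -/
theorem closure_of_injective {G : Type*} [Group G] {x y : G}
    (h : Function.Injective (FreeGroup.lift ![x, y])) :
    Nonempty (Subgroup.closure {x, y} ≃* FreeGroup (Fin 2)) := by
  have h1 : (FreeGroup.lift ![x, y]).range = Subgroup.closure {x, y} := by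
    rw [FreeGroup.range_lift_eq_closure]
    congr 1
    ext z
    simp [eq_comm, or_comm]
  exact ⟨(MulEquiv.subgroupCongr h1.symm).trans (MonoidHom.ofInjective h).symm⟩

theorem injective_of_hom {G H : Type*} [Group G] [Group H] (f : G →* H) {x y : G}
    (h : Function.Injective (FreeGroup.lift ![f x, f y])) :
    Function.Injective (FreeGroup.lift ![x, y]) := by
  have e : FreeGroup.lift ![f x, f y] = f.comp (FreeGroup.lift ![x, y]) := by
    ext i
    fin_cases i <;> simp
  rw [e, MonoidHom.coe_comp] at h
  exact h.of_comp

/-- two elements mapping to a free group either have free powers or commuting images -/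
theorem free_or_commute {G β : Type*} [Group G] (f : G →* FreeGroup β) (g h : G) :
    (∃ n : ℕ, 1 ≤ n ∧ Function.Injective (FreeGroup.lift ![g ^ n, h ^ n])) ∨
      Commute (f g) (f h) := by
  classical
  rcases dichotomy (treeDist_fd (α := β)) (isom_leftMul (f g)) (isom_leftMul (f h)) with
    ⟨n, hn, H⟩ | ⟨n, m, hn, hm, v, hv⟩
  · left
    refine ⟨n, hn, injective_of_hom ((leftMul β).comp f) ?_⟩
    rw [map_pow, map_pow]
    exact H
  · right
    rw [← map_pow (leftMul β) (f g) n, ← map_pow (leftMul β) (f h) m, leftMul_apply,
      leftMul_apply, leftMul_apply, leftMul_apply, ← mul_assoc, ← mul_assoc] at hv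
    exact commute_of_pow (by omega) (by omega) (mul_right_cancel hv)

/-- the groups `F(Q) ⋊ (F × F)` satisfy the power alternative, for every `Q` -/
theorem powerAlternative_GQ {α : Type*} (R : Set (FreeGroup α)) : PowerAlternative (GQ R) := by
  classical
  intro g h
  rcases free_or_commute ((MonoidHom.fst _ _).comp SemidirectProduct.rightHom) g h with
    ⟨n, hn, H⟩ | h1
  · exact ⟨n, hn, Or.inr (closure_of_injective H)⟩
  rcases free_or_commute ((MonoidHom.snd _ _).comp SemidirectProduct.rightHom) g h with
    ⟨n, hn, H⟩ | h2
  · exact ⟨n, hn, Or.inr (closure_of_injective H)⟩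
  rcases dichotomy (treeDist_fd (α := PresentedGroup R)) (isom_actK R g) (isom_actK R h) with
    ⟨n, hn, H⟩ | ⟨n, m, hn, hm, v, hv⟩
  · refine ⟨n, hn, Or.inr (closure_of_injective (injective_of_hom (actK R) ?_))⟩
    rw [map_pow, map_pow]
    exact H
  · have h3 : Commute g.right h.right := Prod.ext h1.eq h2.eq
    have h4 : Commute (g ^ n) (h ^ m) := by
      rw [← map_pow, ← map_pow, ← Equiv.Perm.mul_apply, ← Equiv.Perm.mul_apply, ← map_mul,
        ← map_mul, actK_apply, actK_apply] at hv
      have e : (g ^ n * h ^ m).right = (h ^ m * g ^ n).right := by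
        have e1 : ∀ (x : GQ R) (k : ℕ), (x ^ k).right = x.right ^ k := fun x k =>
          map_pow SemidirectProduct.rightHom x k
        rw [SemidirectProduct.mul_right, SemidirectProduct.mul_right, e1, e1]
        exact (h3.pow_pow n m).eq
      rw [e] at hv
      exact SemidirectProduct.ext (mul_right_cancel hv) e
    refine ⟨n * m, Nat.mul_pos hn hm, Or.inl ?_⟩
    rw [pow_mul, mul_comm n m, pow_mul]
    exact h4.pow_pow m n

/-- `F(Q) ⋊ (F × F)` is torsion-free -/
theorem torsionFree_GQ {α : Type*} (R : Set (FreeGroup α)) (g : GQ R) (n : ℕ) (hn : 1 ≤ n)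
    (h : g ^ n = 1) : g = 1 := by
  have e1 : ∀ (x : GQ R) (k : ℕ), (x ^ k).right = x.right ^ k := fun x k =>
    map_pow SemidirectProduct.rightHom x k
  have h1 : g.right ^ n = 1 := by rw [← e1, h]; rfl
  have h2 : g.right = 1 := by
    apply pow_left_injective (n := n) (by omega)
    simpa using h1
  have h3 : g = SemidirectProduct.inl g.left := by
    ext
    · rw [SemidirectProduct.left_inl]
    · rw [SemidirectProduct.right_inl, h2]
    · rw [SemidirectProduct.right_inl, h2]
  rw [h3, ← map_pow] at h
  have h4 : g.left ^ n = 1 := SemidirectProduct.inl_injective (by rw [h, map_one])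
  have h5 : g.left = 1 := by
    apply pow_left_injective (n := n) (by omega)
    simpa using h4
  rw [h3, h5, map_one]

end Pool.Agent.PowAlt
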