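import Mathlib
import Pool.Agent.PowAlt.Group

set_option autoImplicit false

/-!
# Finite presentability of `F(Q) ⋊ (F × F)`
-/

namespace Pool.Agent.PowAlt

open scoped commutatorElement

section

variable {α : Type*} (R : Set (FreeGroup α))

/-- generators: two copies of `α` and one more letter -/
abbrev Gen (α : Type*) := Option (α ⊕ α)

/-- first copy of the generators -/
def gX (i : α) : FreeGroup (Gen α) := FreeGroup.of (some (Sum.inl i))

/-- second copy of the generators -/
def gY (i : α) : FreeGroup (Gen α) := FreeGroup.of (some (Sum.inr i))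

/-- the last generator -/
def gT (α : Type*) : FreeGroup (Gen α) := FreeGroup.of none

/-- words in the first copy -/
def emb (α : Type*) : FreeGroup α →* FreeGroup (Gen α) := FreeGroup.lift gX

/-- the relators of `GQ R` -/
def rels : Set (FreeGroup (Gen α)) :=
  (Set.range fun p : α × α => ⁅gX p.1, gY p.2⁆) ∪
  (Set.range fun i : α => ⁅gT α, gX i * gY i⁆) ∪
  ((fun r : FreeGroup α => ⁅gT α, emb α r⁆) '' R)

theorem rels_finite [Finite α] (hR : R.Finite) : (rels R).Finite := by
  unfold rels
  exact ((Set.finite_range _).union (Set.finite_range _)).union (hR.image _)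

/-- the presented group -/
abbrev PG := PresentedGroup (rels R)

/-- left copy of the free group -/
def xh : FreeGroup α →* PG R := FreeGroup.lift fun i => PresentedGroup.of (some (Sum.inl i))

/-- right copy of the free group -/
def yh : FreeGroup α →* PG R := FreeGroup.lift fun i => PresentedGroup.of (some (Sum.inr i))

/-- the stable letter -/
def tt : PG R := PresentedGroup.of none

theorem rel_one {r : FreeGroup (Gen α)} (hr : r ∈ rels R) : PresentedGroup.mk (rels R) r = 1 :=
  PresentedGroup.one_of_mem hr

theorem comm_gen (i j : α) : Commute (xh R (FreeGroup.of i)) (yh R (FreeGroup.of j)) := by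
  have h := rel_one R (r := ⁅gX i, gY j⁆) (Or.inl (Or.inl ⟨(i, j), rfl⟩))
  rw [map_commutatorElement, commutatorElement_eq_one_iff_commute] at h
  unfold xh yh
  rw [FreeGroup.lift_apply_of, FreeGroup.lift_apply_of]
  exact h

theorem comm_xy (u v : FreeGroup α) : Commute (xh R u) (yh R v) := by
  have h1 : ∀ j, Commute (xh R u) (yh R (FreeGroup.of j)) := by
    intro j
    induction u using FreeGroup.induction_on with
    | C1 => rw [map_one]; exact Commute.one_left _
    | of i => exact comm_gen R i j
    | inv_of i hi => rw [map_inv]; exact hi.inv_left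
    | mul a b ha hb => rw [map_mul]; exact ha.mul_left hb
  induction v using FreeGroup.induction_on with
  | C1 => rw [map_one]; exact Commute.one_right _
  | of i => exact h1 i
  | inv_of i hi => rw [map_inv]; exact hi.inv_right
  | mul a b ha hb => rw [map_mul]; exact ha.mul_right hb

theorem comm_t_gen (i : α) :
    Commute (tt R) (xh R (FreeGroup.of i) * yh R (FreeGroup.of i)) := by
  have h := rel_one R (r := ⁅gT α, gX i * gY i⁆) (Or.inl (Or.inr ⟨i, rfl⟩))
  rw [map_commutatorElement, commutatorElement_eq_one_iff_commute, map_mul] at h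
  unfold xh yh
  rw [FreeGroup.lift_apply_of, FreeGroup.lift_apply_of]
  exact h

theorem comm_t_diag (u : FreeGroup α) : Commute (tt R) (xh R u * yh R u) := by
  induction u using FreeGroup.induction_on with
  | C1 => rw [map_one, map_one, mul_one]; exact Commute.one_right _
  | of i => exact comm_t_gen R i
  | inv_of i hi =>
    rw [map_inv, map_inv, ← mul_inv_rev, ← (comm_xy R _ _).eq]
    exact hi.inv_right
  | mul a b ha hb =>
    have : xh R (a * b) * yh R (a * b) = (xh R a * yh R a) * (xh R b * yh R b) := by
      rw [map_mul, map_mul, mul_assoc, mul_assoc, ← mul_assoc (xh R b), (comm_xy R b a).eq,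
        mul_assoc]
    rw [this]
    exact ha.mul_right hb

theorem comm_t_rel {n : FreeGroup α} (hn : n ∈ Subgroup.normalClosure R) :
    Commute (tt R) (xh R n) := by
  have key : Subgroup.normalClosure R ≤
      (Subgroup.centralizer {tt R}).comap (xh R) := by
    unfold Subgroup.normalClosure
    rw [Subgroup.closure_le]
    intro z hz
    rw [Group.mem_conjugatesOfSet_iff] at hz
    obtain ⟨r, hr, hz⟩ := hz
    rw [isConj_iff] at hz
    obtain ⟨f, rfl⟩ := hz
    rw [SetLike.mem_coe, Subgroup.mem_comap, Subgroup.mem_centralizer_singleton_iff]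
    have h1 : Commute (tt R) (xh R r) := by
      have h := rel_one R (r := ⁅gT α, emb α r⁆) (Or.inr ⟨r, hr, rfl⟩)
      rw [map_commutatorElement, commutatorElement_eq_one_iff_commute] at h
      have e : (PresentedGroup.mk (rels R)).comp (emb α) = xh R := by
        ext i
        rw [MonoidHom.comp_apply]
        unfold emb xh
        rw [FreeGroup.lift_apply_of, FreeGroup.lift_apply_of]
        rfl
      rw [← e]
      exact h
    have h2 : xh R (f * r * f⁻¹) = (xh R f * yh R f) * xh R r * (xh R f * yh R f)⁻¹ := by
      rw [map_mul, map_mul, map_inv, mul_inv_rev, mul_assoc (xh R f) (yh R f),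
        ← (comm_xy R r f).eq]
      group
    rw [h2]
    exact ((((comm_t_diag R f).mul_right h1).mul_right (comm_t_diag R f).inv_right)).eq.symm
  have := key hn
  rw [Subgroup.mem_comap, Subgroup.mem_centralizer_singleton_iff] at this
  exact this.symm

/-- the image of the basis element `q` -/
noncomputable def tau (q : PresentedGroup R) : PG R :=
  xh R (Function.surjInv (PresentedGroup.mk_surjective R) q) * tt R *
    (xh R (Function.surjInv (PresentedGroup.mk_surjective R) q))⁻¹

theorem tau_mk (u : FreeGroup α) :
    tau R (PresentedGroup.mk R u) = xh R u * tt R * (xh R u)⁻¹ := by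
  unfold tau
  set w := Function.surjInv (PresentedGroup.mk_surjective R) (PresentedGroup.mk R u) with hw
  have h1 : PresentedGroup.mk R w = PresentedGroup.mk R u :=
    Function.surjInv_eq (PresentedGroup.mk_surjective R) _
  have h2 : PresentedGroup.mk R (u⁻¹ * w) = 1 := by
    rw [map_mul, map_inv, h1, inv_mul_cancel]
  rw [PresentedGroup.mk_eq_one_iff] at h2
  have h3 := comm_t_rel R h2
  rw [map_mul, map_inv] at h3
  have h4 : xh R w = xh R u * ((xh R u)⁻¹ * xh R w) := by group
  rw [h4]
  generalize (xh R u)⁻¹ * xh R w = z at *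
  rw [mul_inv_rev, mul_assoc (xh R u) z, ← h3.eq]
  group

/-- from the presented group to the semidirect product: images of generators -/
def genImg : Gen α → GQ R
  | none => SemidirectProduct.inl (FreeGroup.of 1)
  | some (Sum.inl i) => SemidirectProduct.inr (FreeGroup.of i, 1)
  | some (Sum.inr i) => SemidirectProduct.inr (1, FreeGroup.of i)

theorem lift_gX (i : α) : FreeGroup.lift (genImg R) (gX i) =
    SemidirectProduct.inr (FreeGroup.of i, 1) := by
  unfold gX
  rw [FreeGroup.lift_apply_of]
  rfl

theorem lift_gY (i : α) : FreeGroup.lift (genImg R) (gY i) =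
    SemidirectProduct.inr (1, FreeGroup.of i) := by
  unfold gY
  rw [FreeGroup.lift_apply_of]
  rfl

theorem lift_gT : FreeGroup.lift (genImg R) (gT α) =
    SemidirectProduct.inl (FreeGroup.of 1) := by
  unfold gT
  rw [FreeGroup.lift_apply_of]
  rfl

theorem lift_emb (r : FreeGroup α) : FreeGroup.lift (genImg R) (emb α r) =
    SemidirectProduct.inr (r, 1) := by
  have e : (FreeGroup.lift (genImg R)).comp (emb α) =
      SemidirectProduct.inr.comp (MonoidHom.inl _ _) := by
    ext i : 1
    rw [MonoidHom.comp_apply]
    unfold emb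
    rw [FreeGroup.lift_apply_of, lift_gX]
    rfl
  exact DFunLike.congr_fun e r

theorem commute_stab {p : FreeGroup α × FreeGroup α} {x : FreeGroup (PresentedGroup R)}
    (h : act R p x = x) :
    Commute (SemidirectProduct.inl x : GQ R) (SemidirectProduct.inr p) := by
  have := SemidirectProduct.inl_aut (φ := act R) p x
  rw [h] at this
  have h2 : (SemidirectProduct.inl x : GQ R) * SemidirectProduct.inr p =
      SemidirectProduct.inr p * SemidirectProduct.inl x := by
    nth_rewrite 1 [this]
    rw [map_inv, inv_mul_cancel_right]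
  exact h2

theorem rels_img : ∀ r ∈ rels R, FreeGroup.lift (genImg R) r = 1 := by
  rintro _ ((⟨⟨i, j⟩, rfl⟩ | ⟨i, rfl⟩) | ⟨r, hr, rfl⟩)
  · dsimp only
    rw [map_commutatorElement, commutatorElement_eq_one_iff_commute, lift_gX, lift_gY]
    refine Commute.map ?_ SemidirectProduct.inr
    exact Prod.ext (by simp) (by simp)
  · dsimp only
    rw [map_commutatorElement, commutatorElement_eq_one_iff_commute, map_mul, lift_gX, lift_gY,
      lift_gT, ← map_mul]
    apply commute_stab
    rw [act_of]
    simp
  · dsimp only
    rw [map_commutatorElement, commutatorElement_eq_one_iff_commute, lift_emb, lift_gT]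
    apply commute_stab
    rw [act_of]
    have : PresentedGroup.mk R r = 1 := PresentedGroup.one_of_mem hr
    simp [this]

/-- from the presented group to the semidirect product -/
def Phi : PG R →* GQ R := PresentedGroup.toGroup (rels_img R)

/-- the copy of `F × F` -/
def f2 : FreeGroup α × FreeGroup α →* PG R :=
  MonoidHom.noncommCoprod (xh R) (yh R) (comm_xy R)

theorem f2_apply (p : FreeGroup α × FreeGroup α) : f2 R p = xh R p.1 * yh R p.2 := rfl

/-- the free normal subgroup -/
noncomputable def f1 : FreeGroup (PresentedGroup R) →* PG R := FreeGroup.lift (tau R)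

theorem f1_of (q : PresentedGroup R) : f1 R (FreeGroup.of q) = tau R q := by
  unfold f1
  rw [FreeGroup.lift_apply_of]

theorem conj_y_t (v : FreeGroup α) :
    yh R v * tt R * (yh R v)⁻¹ = (xh R v)⁻¹ * tt R * xh R v := by
  have h := (comm_t_diag R v).eq
  have h2 : yh R v * tt R * (yh R v)⁻¹ =
      (xh R v)⁻¹ * ((xh R v * yh R v) * tt R) * (yh R v)⁻¹ := by group
  rw [h2, ← h]
  group

theorem compat (p : FreeGroup α × FreeGroup α) :
    (f1 R).comp (MulEquiv.toMonoidHom (act R p)) =
      (MulEquiv.toMonoidHom (MulAut.conj (f2 R p))).comp (f1 R) := by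
  ext q
  obtain ⟨u, rfl⟩ := PresentedGroup.mk_surjective R q
  simp only [MonoidHom.comp_apply, MulEquiv.coe_toMonoidHom]
  rw [act_of, ← map_mul, ← map_inv, ← map_mul, f1_of, f1_of, tau_mk, tau_mk, MulAut.conj_apply,
    f2_apply, map_mul, map_mul, map_inv]
  have h1 := (comm_xy R u p.2).eq
  have h2 := conj_y_t R p.2
  calc xh R p.1 * xh R u * (xh R p.2)⁻¹ * tt R * (xh R p.1 * xh R u * (xh R p.2)⁻¹)⁻¹
      = xh R p.1 * xh R u * ((xh R p.2)⁻¹ * tt R * xh R p.2) * (xh R u)⁻¹ * (xh R p.1)⁻¹ := by
        group
    _ = xh R p.1 * (xh R u * yh R p.2) * tt R * (xh R u * yh R p.2)⁻¹ * (xh R p.1)⁻¹ := by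
        rw [← h2]; group
    _ = xh R p.1 * yh R p.2 * (xh R u * tt R * (xh R u)⁻¹) * (xh R p.1 * yh R p.2)⁻¹ := by
        rw [h1]; group

/-- from the semidirect product to the presented group -/
noncomputable def Psi : GQ R →* PG R :=
  SemidirectProduct.lift (f1 R) (f2 R) (compat R)

theorem Phi_xh (u : FreeGroup α) : Phi R (xh R u) = SemidirectProduct.inr (u, 1) := by
  have e : (Phi R).comp (xh R) = SemidirectProduct.inr.comp (MonoidHom.inl _ _) := by
    ext i : 1
    rw [MonoidHom.comp_apply]
    unfold xh Phi
    rw [FreeGroup.lift_apply_of, PresentedGroup.toGroup.of]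
    rfl
  exact DFunLike.congr_fun e u

theorem Phi_yh (u : FreeGroup α) : Phi R (yh R u) = SemidirectProduct.inr (1, u) := by
  have e : (Phi R).comp (yh R) = SemidirectProduct.inr.comp (MonoidHom.inr _ _) := by
    ext i : 1
    rw [MonoidHom.comp_apply]
    unfold yh Phi
    rw [FreeGroup.lift_apply_of, PresentedGroup.toGroup.of]
    rfl
  exact DFunLike.congr_fun e u

theorem Phi_tt : Phi R (tt R) = SemidirectProduct.inl (FreeGroup.of 1) := by
  unfold tt Phi
  rw [PresentedGroup.toGroup.of]
  rfl

theorem Psi_Phi : (Psi R).comp (Phi R) = MonoidHom.id _ := by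
  apply PresentedGroup.ext
  intro x
  rw [MonoidHom.comp_apply, MonoidHom.id_apply]
  unfold Phi
  rw [PresentedGroup.toGroup.of]
  rcases x with _ | i | i
  · change Psi R (SemidirectProduct.inl (FreeGroup.of 1)) = _
    unfold Psi
    rw [SemidirectProduct.lift_inl, f1_of, ← map_one (PresentedGroup.mk R), tau_mk]
    rw [map_one, one_mul, inv_one, mul_one]
    rfl
  · change Psi R (SemidirectProduct.inr (FreeGroup.of i, 1)) = _
    unfold Psi
    rw [SemidirectProduct.lift_inr, f2_apply]
    simp only [map_one, mul_one]
    unfold xh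
    rw [FreeGroup.lift_apply_of]
  · change Psi R (SemidirectProduct.inr (1, FreeGroup.of i)) = _
    unfold Psi
    rw [SemidirectProduct.lift_inr, f2_apply]
    simp only [map_one, one_mul]
    unfold yh
    rw [FreeGroup.lift_apply_of]

theorem Phi_Psi : (Phi R).comp (Psi R) = MonoidHom.id _ := by
  apply SemidirectProduct.hom_ext
  · ext q : 1
    obtain ⟨u, rfl⟩ := PresentedGroup.mk_surjective R q
    rw [MonoidHom.comp_apply, MonoidHom.comp_apply, MonoidHom.comp_apply, MonoidHom.id_apply]
    unfold Psi
    rw [SemidirectProduct.lift_inl, f1_of, tau_mk, map_mul, map_mul, map_inv, Phi_xh, Phi_tt,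
      ← map_inv, ← SemidirectProduct.inl_aut, act_of]
    simp
  · ext p : 1
    rw [MonoidHom.comp_apply, MonoidHom.comp_apply, MonoidHom.comp_apply, MonoidHom.id_apply]
    unfold Psi
    rw [SemidirectProduct.lift_inr, f2_apply, map_mul, Phi_xh, Phi_yh, ← map_mul]
    simp

/-- `GQ R` is presented by `rels R` -/
noncomputable def equivPG : PG R ≃* GQ R :=
  MonoidHom.toMulEquiv (Phi R) (Psi R) (Psi_Phi R) (Phi_Psi R)

/-- `F(Q) ⋊ (F × F)` is finitely presented when `Q` is -/
theorem finitelyPresented_GQ [Finite α] (hR : R.Finite) : Group.IsFinitelyPresented (GQ R) := by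
  have : Finite (rels R) := rels_finite R hR
  exact Group.IsFinitelyPresented.equiv (equivPG R)

end

end Pool.Agent.PowAlt
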