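import Mathlib
import Pool.Agent.PowAlt.Present

set_option autoImplicit false

/-!
# The Baumslag–Solitar group `BS(2,3)` and the failure of the uniform power alternative
-/

namespace Pool.Agent.PowAlt

/-- the generator `a` -/
def ga : FreeGroup (Fin 2) := FreeGroup.of 0

/-- the generator `s` -/
def gs : FreeGroup (Fin 2) := FreeGroup.of 1

/-- the relator `s a² s⁻¹ a⁻³` -/
def relBS : FreeGroup (Fin 2) := gs * ga ^ 2 * gs⁻¹ * (ga ^ 3)⁻¹

/-- `BS(2,3)` -/
abbrev BS : Type := PresentedGroup ({relBS} : Set (FreeGroup (Fin 2)))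

/-- `a` in `BS(2,3)` -/
def ba : BS := PresentedGroup.mk _ ga

/-- `s` in `BS(2,3)` -/
def bs : BS := PresentedGroup.mk _ gs

theorem bs_rel : bs * ba ^ 2 * bs⁻¹ = ba ^ 3 := by
  have h : PresentedGroup.mk ({relBS} : Set (FreeGroup (Fin 2))) relBS = 1 :=
    PresentedGroup.one_of_mem rfl
  unfold relBS at h
  rw [map_mul, map_mul, map_mul, map_inv, map_inv, map_pow, map_pow, mul_inv_eq_one] at h
  exact h

theorem bs_rel' : bs⁻¹ * ba ^ 3 * bs = ba ^ 2 := by
  rw [← bs_rel]
  group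

theorem root (j : ℕ) : (bs⁻¹) ^ j * ba ^ (3 ^ j) * bs ^ j = ba ^ (2 ^ j) := by
  induction j with
  | zero => simp
  | succ j ih =>
    have h1 : (bs⁻¹) ^ (j + 1) * ba ^ (3 ^ (j + 1)) * bs ^ (j + 1) =
        bs⁻¹ * ((bs⁻¹) ^ j * ba ^ (3 ^ j) * bs ^ j) ^ 3 * bs := by
      have h2 : ((bs⁻¹) ^ j * ba ^ (3 ^ j) * bs ^ j) ^ 3 =
          (bs⁻¹) ^ j * (ba ^ (3 ^ j)) ^ 3 * bs ^ j := by
        have := conj_pow (a := (bs⁻¹) ^ j) (b := ba ^ (3 ^ j)) (i := 3)
        rw [inv_pow, inv_inv] at this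
        rw [inv_pow]
        exact this
      rw [h2, ← pow_mul, ← pow_succ, pow_succ', pow_succ]
      group
    rw [h1, ih, ← pow_mul, mul_comm (2 ^ j) 3, pow_mul, pow_succ 2 j, mul_comm (2 ^ j) 2, pow_mul,
      ← bs_rel']
    have := conj_pow (a := bs⁻¹) (b := ba ^ 3) (i := 2 ^ j)
    rw [inv_inv] at this
    exact this.symm

/-- the HNN extension -/
abbrev Z := Multiplicative ℤ

/-- the `n`-th power map -/
def pw (n : ℕ) : Z →* Z := powMonoidHom n

theorem pw_inj {n : ℕ} (hn : n ≠ 0) : Function.Injective (pw n) := by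
  intro x y h
  exact pow_left_injective hn h

/-- the associated isomorphism -/
noncomputable def phiBS : (pw 2).range ≃* (pw 3).range :=
  (MonoidHom.ofInjective (pw_inj (n := 2) (by norm_num))).symm.trans
    (MonoidHom.ofInjective (pw_inj (n := 3) (by norm_num)))

/-- the HNN extension -/
abbrev HN := HNNExtension Z (pw 2).range (pw 3).range phiBS

theorem phiBS_apply (z : Z) : phiBS ⟨pw 2 z, ⟨z, rfl⟩⟩ = ⟨pw 3 z, ⟨z, rfl⟩⟩ := by
  unfold phiBS
  rw [MulEquiv.trans_apply]
  have : (MonoidHom.ofInjective (pw_inj (n := 2) (by norm_num))).symm ⟨pw 2 z, ⟨z, rfl⟩⟩ = z := by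
    rw [MulEquiv.symm_apply_eq]
    rfl
  rw [this]
  rfl

/-- generator of `ℤ` -/
def z1 : Z := Multiplicative.ofAdd 1

theorem hnn_rel (z : Z) : (HNNExtension.t : HN) * HNNExtension.of (z ^ 2) * HNNExtension.t⁻¹ =
    HNNExtension.of (z ^ 3) := by
  have h := HNNExtension.equiv_eq_conj (φ := phiBS) ⟨pw 2 z, ⟨z, rfl⟩⟩
  rw [phiBS_apply] at h
  exact h.symm

/-- the comparison homomorphism -/
noncomputable def toHN : BS →* HN := PresentedGroup.toGroup
  (f := ![HNNExtension.of z1, HNNExtension.t]) (by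
    rintro _ rfl
    unfold relBS ga gs
    simp only [map_mul, map_inv, map_pow, FreeGroup.lift_apply_of]
    rw [mul_inv_eq_one]
    have := hnn_rel z1
    rw [map_pow, map_pow] at this
    exact this)

theorem toHN_a : toHN ba = HNNExtension.of z1 := by
  unfold toHN ba ga
  exact PresentedGroup.toGroup.of _

theorem toHN_s : toHN bs = HNNExtension.t := by
  unfold toHN bs gs
  exact PresentedGroup.toGroup.of _

theorem mem_range_pw {n : ℕ} {k : ℤ} (h : z1 ^ k ∈ (pw n).range) : (n : ℤ) ∣ k := by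
  obtain ⟨z, hz⟩ := h
  have h1 := congrArg Multiplicative.toAdd hz
  refine ⟨Multiplicative.toAdd z, ?_⟩
  simpa [pw, z1] using h1.symm

/-- the Britton argument -/
theorem britton {r : ℕ} (hr : ¬ (3 : ℤ) ∣ r) :
    (HNNExtension.t : HN)⁻¹ * HNNExtension.of (z1 ^ (r : ℤ)) * HNNExtension.t * HNNExtension.of z1 *
      (HNNExtension.t)⁻¹ * HNNExtension.of (z1 ^ (-(r : ℤ))) * HNNExtension.t *
      HNNExtension.of (z1⁻¹) ≠ 1 := by
  intro h
  let w : HNNExtension.NormalWord.ReducedWord Z (pw 2).range (pw 3).range :=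
    { head := 1
      toList := [(-1, z1 ^ (r : ℤ)), (1, z1), (-1, z1 ^ (-(r : ℤ))), (1, z1⁻¹)]
      chain := by
        simp only [List.isChain_cons_cons, List.isChain_singleton, and_true]
        refine ⟨?_, ?_, ?_⟩
        · intro h
          exact absurd (mem_range_pw h) hr
        · intro h
          have h' : z1 ^ (1 : ℤ) ∈ (pw 2).range := by rw [zpow_one]; exact h
          have := mem_range_pw h'
          norm_num at this
        · intro h
          have := mem_range_pw h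
          rw [dvd_neg] at this
          exact absurd this hr }
  have h1 := HNNExtension.ReducedWord.toList_eq_nil_of_mem_of_range phiBS w (by
    have : w.prod phiBS = 1 := by
      rw [← h]
      simp only [HNNExtension.NormalWord.ReducedWord.prod, w, List.map_cons, List.map_nil,
        List.prod_cons, List.prod_nil, map_one, one_mul, mul_one]
      simp [mul_assoc]
    rw [this]
    exact one_mem _)
  simp [w] at h1

/-- `s^{-j} a s^j`, with `j = i + 1` -/
def gc (j : ℕ) : FreeGroup (Fin 2) := (gs⁻¹) ^ j * ga * gs ^ j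

/-- its image in `BS(2,3)` -/
def bc (j : ℕ) : BS := (bs⁻¹) ^ j * ba * bs ^ j

theorem bc_pow (j n : ℕ) : bc j ^ n = (bs⁻¹) ^ j * ba ^ n * bs ^ j := by
  unfold bc
  have := conj_pow (a := (bs⁻¹) ^ j) (b := ba) (i := n)
  rw [inv_pow, inv_inv] at this
  rw [inv_pow]
  exact this

theorem bc_commute (j : ℕ) : Commute (bc j ^ (3 ^ j)) ba := by
  rw [bc_pow, root]
  exact (Commute.refl ba).pow_left _

theorem bc_not_commute {i l : ℕ} (hl : ¬ 3 ∣ l) :
    ¬ Commute (bc (i + 1) ^ (3 ^ i * l)) ba := by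
  intro h
  have h1 : bc (i + 1) ^ (3 ^ i * l) = bs⁻¹ * ba ^ (2 ^ i * l) * bs := by
    rw [bc_pow, pow_mul ba, pow_mul ba, ← root i]
    have := conj_pow (a := (bs⁻¹) ^ i) (b := ba ^ 3 ^ i) (i := l)
    rw [inv_pow, inv_inv] at this
    rw [inv_pow bs i, this, pow_succ', pow_succ]
    rw [inv_pow]
    group
  have h2 := h.map toHN
  rw [h1, map_mul, map_mul, map_inv, map_pow, toHN_a, toHN_s] at h2
  have hr : ¬ (3 : ℤ) ∣ ((2 ^ i * l : ℕ) : ℤ) := by
    intro h3
    have h4 : 3 ∣ 2 ^ i * l := by exact_mod_cast h3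
    rcases (Nat.Prime.dvd_mul (by norm_num)).mp h4 with h5 | h5
    · have := Nat.Prime.dvd_of_dvd_pow (by norm_num) h5
      norm_num at this
    · exact hl h5
  apply britton hr
  have h3 := commutatorElement_eq_one_iff_commute.mpr h2
  rw [commutatorElement_def] at h3
  rw [← h3]
  rw [zpow_neg, zpow_natCast, map_inv, map_inv, map_pow]
  group

end Pool.Agent.PowAlt
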